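import Pool.Agent.T2h22.Pots

/-!
# Yudovich's instability conjecture in the `C^{1,α}` norm: ellipses and discs

For the two-dimensional Euler equations on an ellipse (in particular on a disc): every datum
`ωs` (steady or not) can be perturbed by an arbitrarily small amount in `C^{1,α}` so that the
vorticity of every solution with the perturbed datum tends to infinity in `C^{1,α}`, with the
lower bound `c t ^ ((1 + α) / 2)`. In particular no steady state is stable in `C^{1,α}`.
-/

set_option autoImplicit false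

open MeasureTheory Set Filter Topology Metric

namespace Pool.Agent.Results.MP_fb2db9_an.EllipseC1HolderGrowth

open Pool.Agent.T2h22

theorem result {a b α : ℝ} (ha : 0 < a) (hb : 0 < b) (hα : 0 < α) (hα1 : α < 1)
    (ωs : ℂ → ℝ) {ε : ℝ} (hε : 0 < ε) :
    ∃ ω0 : ℂ → ℝ, holderNorm1 (Ellipse a b) α (fun z => ω0 z - ωs z) ≤ ENNReal.ofReal ε ∧
      ∀ (ω ψ : ℝ → ℂ → ℝ) (Φ : ℝ → ℂ → ℂ), IsEulerSolution3 (Ellipse a b) ω ψ Φ →
        (∀ z ∈ Ellipse a b, ω 0 z = ω0 z) →
        Tendsto (fun t => holderNorm1 (Ellipse a b) α (ω t)) atTop (𝓝 ⊤) ∧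
        ∃ c : ℝ, 0 < c ∧ ∀ᶠ t in atTop,
          ENNReal.ofReal (c * t ^ ((1 + α) / 2)) ≤ holderNorm1 (Ellipse a b) α (ω t) := by
  have hM := isOpen_ellipse ha hb
  have hcv := convex_ellipse ha hb
  obtain ⟨x, e, hx, he, hd⟩ := exists_dense_pairs
  obtain ⟨ρ0, hρ0, hcusp⟩ := prof1_cusp hα hα1
  have hℓ : ∀ e : ℂ, ‖e‖ = 1 → ‖ContinuousLinearMap.apply ℝ ℝ e‖ ≤ 1 := fun e he => by
    refine ContinuousLinearMap.opNorm_le_bound _ zero_le_one fun L => ?_
    rw [ContinuousLinearMap.apply_apply, one_mul]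
    have := L.le_opNorm e
    rwa [he, mul_one] at this
  obtain ⟨r, hr0, hr1, hrh, hreg, hcoef⟩ := exists_coeff (α := α) (C := 8) (σ := 1 + α) (ρ0 := ρ0)
    (G := prof1 α) (ℓ := fun e => ContinuousLinearMap.apply ℝ ℝ e) hα hα1 (by norm_num)
    (fun y hy => by rw [prof1, vec1_supp hα1 y hy, map_zero])
    (prof1_bd hα hα1) (fun y w => by rw [prof1_sub]; exact vec1_holder hα hα1 y w)
    (fun d hd y w hy hw => by rw [prof1_sub]; exact vec1_lip hα hα1 d hd y w hy hw)
    (by linarith) hρ0 hℓ hcusp hx he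
  -- the size of the rough part
  set c0 : ℝ := ε / 100 with hc0
  have hc00 : 0 < c0 := by positivity
  obtain ⟨t, ht1, ht⟩ := hcoef (fderiv ℝ ωs) c0 hc00
  obtain ⟨hbd, hhol⟩ := hreg t ht1
  have hpots := hasFDerivAt_pots (x := x) hα hα1 hr0 hr1 hrh ht1
  have hpbd := pots_bd (x := x) hα hα1 hr0 hr1 hrh ht1
  set g : ℂ → ℝ := fun z => ωs z + c0 * pots α r x t z with hg
  -- the size of the smooth part
  obtain ⟨K1, hK10, hK11, -⟩ := holder_of_contDiff ((PP_contDiff a b 1).of_le (by norm_num))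
    (isBounded_ellipse ha hb) hα hα1
  obtain ⟨K2, hK20, hK21, hK22⟩ := holder_of_contDiff
    ((PP_contDiff a b 1).fderiv_right (m := 1) (by norm_num)) (isBounded_ellipse ha hb) hα hα1
  set K : ℝ := K1 + K2 with hK
  have hK0 : 0 ≤ K := by positivity
  set k : ℝ := ε / (10 * (K + 1)) with hk
  have hk0 : 0 < k := by positivity
  obtain ⟨s, hs, hgood⟩ := exists_good ha hb hk0.ne' g
  have hsk : |s * k| * K ≤ ε / 10 := by
    rw [abs_mul, abs_of_pos hk0]
    calc |s| * k * K ≤ 1 * k * (K + 1) := by gcongr; linarith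
      _ = ε / 10 := by rw [hk]; field_simp
  have hsk1 : |s * k| * K1 ≤ ε / 10 :=
    (mul_le_mul_of_nonneg_left (by linarith) (abs_nonneg _)).trans hsk
  have hsk2 : |s * k| * K2 ≤ ε / 10 :=
    (mul_le_mul_of_nonneg_left (by linarith) (abs_nonneg _)).trans hsk
  have hPPeq : PP a b (s * k) = fun z => (s * k) * PP a b 1 z := funext fun z => PP_smul a b _ z
  have hPPd : ∀ z, HasFDerivAt (PP a b (s * k)) ((s * k) • fderiv ℝ (PP a b 1) z) z := fun z => by
    rw [hPPeq]
    exact (((PP_contDiff a b 1).differentiable (by norm_num)) z).hasFDerivAt.const_mul (s * k)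
  refine ⟨fun z => g z + PP a b (s * k) z, ?_, ?_⟩
  · -- closeness
    have e1 : (fun z => g z + PP a b (s * k) z - ωs z) =
        fun z => c0 * pots α r x t z + PP a b (s * k) z := funext fun z => by
      rw [hg]; ring
    have hder : ∀ z, fderiv ℝ (fun z => c0 * pots α r x t z + PP a b (s * k) z) z =
        c0 • cusps α (prof1 α) r x t z + (s * k) • fderiv ℝ (PP a b 1) z := fun z =>
      (((hpots z).const_mul c0).add (hPPd z)).fderiv
    rw [e1, holderNorm1]
    have e2 : ENNReal.ofReal ε = ENNReal.ofReal (ε / 5) + ENNReal.ofReal (ε / 5 + 3 * ε / 5) := by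
      rw [← ENNReal.ofReal_add (by positivity) (by positivity)]; congr 1; ring
    rw [e2]
    refine add_le_add (iSup₂_le fun z hz => ?_) (norm_le_of_holder (by positivity) (by positivity)
      (fun z hz => ?_) (fun z hz w hw => ?_))
    · rw [← ofReal_norm]
      refine ENNReal.ofReal_le_ofReal ((norm_add_le _ _).trans ?_)
      rw [norm_mul, Real.norm_of_nonneg hc00.le, PP_smul, norm_mul, Real.norm_eq_abs (s * k)]
      have h1 : c0 * ‖pots α r x t z‖ ≤ c0 * 2 := mul_le_mul_of_nonneg_left (hpbd z) hc00.le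
      have h2 : |s * k| * ‖PP a b 1 z‖ ≤ |s * k| * K1 :=
        mul_le_mul_of_nonneg_left (hK11 z hz) (abs_nonneg _)
      have h3 : c0 ≤ ε / 100 := hc0.le
      linarith
    · rw [hder]
      refine (norm_add_le _ _).trans ?_
      rw [norm_smul, norm_smul, Real.norm_of_nonneg hc00.le, Real.norm_eq_abs (s * k)]
      have h1 : c0 * ‖cusps α (prof1 α) r x t z‖ ≤ c0 * 8 :=
        mul_le_mul_of_nonneg_left (hbd z) hc00.le
      have h2 : |s * k| * ‖fderiv ℝ (PP a b 1) z‖ ≤ |s * k| * K2 :=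
        mul_le_mul_of_nonneg_left (hK21 z hz) (abs_nonneg _)
      have h3 : c0 ≤ ε / 100 := hc0.le
      linarith
    · rw [hder, hder]
      have e3 : c0 • cusps α (prof1 α) r x t z + (s * k) • fderiv ℝ (PP a b 1) z -
          (c0 • cusps α (prof1 α) r x t w + (s * k) • fderiv ℝ (PP a b 1) w) =
          c0 • (cusps α (prof1 α) r x t z - cusps α (prof1 α) r x t w) +
          (s * k) • (fderiv ℝ (PP a b 1) z - fderiv ℝ (PP a b 1) w) := by
        rw [smul_sub, smul_sub]; abel
      rw [e3]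
      refine (norm_add_le _ _).trans ?_
      rw [norm_smul, norm_smul, Real.norm_of_nonneg hc00.le, Real.norm_eq_abs (s * k)]
      have hp : 0 ≤ ‖z - w‖ ^ α := by positivity
      have h1 : c0 * ‖cusps α (prof1 α) r x t z - cusps α (prof1 α) r x t w‖ ≤
          c0 * (6 * 8 * ‖z - w‖ ^ α) := mul_le_mul_of_nonneg_left (hhol z w) hc00.le
      have h2 : |s * k| * ‖fderiv ℝ (PP a b 1) z - fderiv ℝ (PP a b 1) w‖ ≤
          |s * k| * (K2 * ‖z - w‖ ^ α) :=
        mul_le_mul_of_nonneg_left (hK22 z hz w hw) (abs_nonneg _)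
      have h3 : |s * k| * (K2 * ‖z - w‖ ^ α) ≤ ε / 10 * ‖z - w‖ ^ α := by
        rw [← mul_assoc]; exact mul_le_mul_of_nonneg_right hsk2 hp
      have h4 : c0 * (6 * 8 * ‖z - w‖ ^ α) = 48 * ε / 100 * ‖z - w‖ ^ α := by rw [hc0]; ring
      have h5 : 48 * ε / 100 * ‖z - w‖ ^ α + ε / 10 * ‖z - w‖ ^ α ≤ 3 * ε / 5 * ‖z - w‖ ^ α := by
        rw [← add_mul]
        refine mul_le_mul_of_nonneg_right ?_ hp
        linarith
      linarith
  · intro ω ψ Φ h3 hω
    have h := h3.toIsEulerSolution
    obtain ⟨C1, hC1, hgr⟩ := hgood ω ψ Φ h hω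
    have hpos : 0 < c0 * |1 + α| / 16 := by
      have : 0 < |1 + α| := abs_pos.2 (by linarith)
      positivity
    set c : ℝ := c0 * |1 + α| / 16 / 2 with hc
    have hcpos : 0 < c := by positivity
    -- points near `x j`
    have hnear : ∀ j, x j ∈ Ellipse a b → ∃ δ > 0, ∀ y : ℝ, 0 < y → y < δ →
        x j + y * e j ∈ Ellipse a b := by
      intro j hj
      have hcnt : Tendsto (fun h : ℝ => x j + h * e j) (𝓝[>] 0) (𝓝 (x j + ((0 : ℝ) : ℂ) * e j)) :=
        (Continuous.tendsto (by fun_prop) 0).mono_left nhdsWithin_le_nhds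
      rw [Complex.ofReal_zero, zero_mul, add_zero] at hcnt
      obtain ⟨δ', hδ', hδ''⟩ := mem_nhdsGT_iff_exists_Ioo_subset.1
        (hcnt.eventually (hM.mem_nhds hj))
      exact ⟨δ', hδ', fun y h0 h1 => hδ'' ⟨h0, h1⟩⟩
    -- the derivative of the datum
    have hd0 : ∀ z ∈ Ellipse a b, fderiv ℝ (ω 0) z =
        (fderiv ℝ ωs z + c0 • cusps α (prof1 α) r x t z) + fderiv ℝ (PP a b (s * k)) z := by
      intro z hz
      have hev : ω 0 =ᶠ[𝓝 z] fun z => g z + PP a b (s * k) z := by
        filter_upwards [hM.mem_nhds hz] with w hw using hω w hw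
      have hdω := h3.diff_ω hM le_rfl hz
      have hdg : DifferentiableAt ℝ (fun z => g z + PP a b (s * k) z) z :=
        hdω.congr_of_eventuallyEq hev.symm
      have hds : DifferentiableAt ℝ ωs z := by
        have h1 := (hdg.sub ((hpots z).const_mul c0).differentiableAt).sub (hPPd z).differentiableAt
        refine h1.congr_of_eventuallyEq (Eventually.of_forall fun w => ?_)
        simp only [hg, Pi.sub_apply]
        ring
      rw [hev.fderiv_eq]
      have h2 := ((hds.hasFDerivAt.add ((hpots z).const_mul c0)).add (hPPd z)).fderiv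
      rw [← (hPPd z).fderiv] at h2
      exact h2
    -- the cusps of the derivative of the datum
    have hrough : ∀ j, x j ∈ Ellipse a b → ∀ δ > 0, ∃ h : ℝ, 0 < h ∧ h < δ ∧
        x j + h * e j ∈ Ellipse a b ∧ c * h ^ α ≤
          |fderiv ℝ (ω 0) (x j + h * e j) (e j) - fderiv ℝ (ω 0) (x j) (e j)| := by
      intro j hj δ hδ
      have h1 := rough_add (ℓ := ContinuousLinearMap.apply ℝ ℝ (e j)) (hℓ _ (he j))
        (F := fun z => fderiv ℝ ωs z + c0 • cusps α (prof1 α) r x t z)
        (H := fderiv ℝ (PP a b (s * k))) (x := x j) (he j)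
        ((((PP_contDiff a b (s * k)).fderiv_right (m := 1) (by norm_num)).differentiable
          (by norm_num)) _) hα1 hpos (fun δ hδ => ht j δ hδ)
      obtain ⟨δ', hδ', hδ''⟩ := hnear j hj
      obtain ⟨y, h0, hlt, hle⟩ := h1 (min δ δ') (lt_min hδ hδ')
      have hy : x j + y * e j ∈ Ellipse a b := hδ'' y h0 (hlt.trans_le (min_le_right _ _))
      refine ⟨y, h0, hlt.trans_le (min_le_left _ _), hy, ?_⟩
      rw [← hd0 _ hy, ← hd0 _ hj, ContinuousLinearMap.apply_apply, sub_apply]
        at hle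
      exact hle
    have hfd := h.flowData hM hcv
    -- from the norm to the derivative of the flow
    have key : ∀ t, 0 ≤ t → ∀ N, 0 < N → holderNorm1 (Ellipse a b) α (ω t) ≤ ENNReal.ofReal N →
        t ≤ C1 * (((N / c) ^ (1 / (1 + α))) ^ 2 + 1) := by
      intro t ht N hN hle
      obtain ⟨hN1, hN2⟩ := holder_of_norm_le hN.le (le_add_self.trans hle)
      refine hgr t ht _ ?_
      have hα2 : 0 < 1 + α := by linarith
      have hm : 0 < (c / N) ^ (1 / (1 + α)) := by positivity
      have hinv : (N / c) ^ (1 / (1 + α)) = 1 / (c / N) ^ (1 / (1 + α)) := by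
        rw [← inv_div c N, Real.inv_rpow (by positivity), one_div ((c / N) ^ (1 / (1 + α)))]
      rw [hinv]
      -- chain rule
      have hchain : ∀ z ∈ Ellipse a b, fderiv ℝ (ω 0) z =
          (fderiv ℝ (ω t) (Φ t z)).comp (fderiv ℝ (Φ t) z) := by
        intro z hz
        have hev : ω 0 =ᶠ[𝓝 z] fun z => ω t (Φ t z) := by
          filter_upwards [hM.mem_nhds hz] with w hw using (h.transport t ht w hw).symm
        rw [hev.fderiv_eq]
        exact ((h3.diff_ω hM ht (h.mem ht hz)).hasFDerivAt.comp z (hfd.dphi hz ht)).fderiv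
      refine bound_of_dense hM (D := fun z => fderiv ℝ (Φ t) z) ?_
        (fun z hz => h.jac_one hM hcv ht hz) hd hm fun j hj => ?_
      · exact hfd.dphi_cont.comp (f := fun z : ℂ => (t, z))
          (Continuous.prodMk_right t).continuousOn fun z hz => ⟨ht, hz⟩
      · obtain ⟨L2, hL20, hL2⟩ := h3.lipDu t
        obtain ⟨C, hC0, hC⟩ := hfd.dphi_lip hj ht hL20 hL2
        set D := fderiv ℝ (Φ t) (x j) with hD
        have hr : Tendsto (fun y : ℝ => N * C * y ^ (1 - α)) (𝓝[>] 0) (𝓝 0) := by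
          have t1 := (Real.continuousAt_rpow_const 0 (1 - α) (Or.inr (by linarith))).tendsto
          rw [Real.zero_rpow (by linarith)] at t1
          have t2 := (t1.mono_left (nhdsWithin_le_nhds (s := Ioi (0 : ℝ)))).const_mul (N * C)
          rwa [mul_zero] at t2
        have h1 : c ≤ N * ‖D (e j)‖ * ‖D (e j)‖ ^ α := by
          refine lower_of_holder (hfd.dphi hj ht) hα hr fun δ hδ => ?_
          obtain ⟨y, h0, hlt, hy, hle⟩ := hrough j hj δ hδ
          refine ⟨y, h0, hlt, hle.trans ?_⟩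
          rw [hchain _ hy, hchain _ hj, ContinuousLinearMap.comp_apply,
            ContinuousLinearMap.comp_apply, ← hD]
          have e4 : fderiv ℝ (ω t) (Φ t (x j + y * e j)) (fderiv ℝ (Φ t) (x j + y * e j) (e j)) -
              fderiv ℝ (ω t) (Φ t (x j)) (D (e j)) =
              fderiv ℝ (ω t) (Φ t (x j + y * e j)) ((fderiv ℝ (Φ t) (x j + y * e j) - D) (e j)) +
              (fderiv ℝ (ω t) (Φ t (x j + y * e j)) - fderiv ℝ (ω t) (Φ t (x j))) (D (e j)) := by
            rw [sub_apply, sub_apply, map_sub]; ring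
          rw [e4]
          have hyn : ‖(y : ℂ) * e j‖ = y := by
            rw [norm_mul, he, mul_one, Complex.norm_real, Real.norm_of_nonneg h0.le]
          have b1 : |fderiv ℝ (ω t) (Φ t (x j + y * e j))
              ((fderiv ℝ (Φ t) (x j + y * e j) - D) (e j))| ≤ N * (C * y) := by
            have c1 := (fderiv ℝ (ω t) (Φ t (x j + y * e j))).le_opNorm
              ((fderiv ℝ (Φ t) (x j + y * e j) - D) (e j))
            have c2 := (fderiv ℝ (Φ t) (x j + y * e j) - D).le_opNorm (e j)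
            have c3 := hC _ hy t ⟨ht, le_rfl⟩
            rw [he, mul_one] at c2
            rw [add_sub_cancel_left, hyn] at c3
            exact c1.trans (mul_le_mul (hN1 _ (h.mem ht hy)) (c2.trans c3) (norm_nonneg _) hN.le)
          have b2 : |(fderiv ℝ (ω t) (Φ t (x j + y * e j)) - fderiv ℝ (ω t) (Φ t (x j))) (D (e j))| ≤
              N * ‖Φ t (x j + y * e j) - Φ t (x j)‖ ^ α * ‖D (e j)‖ := by
            have c1 := (fderiv ℝ (ω t) (Φ t (x j + y * e j)) -
              fderiv ℝ (ω t) (Φ t (x j))).le_opNorm (D (e j))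
            exact c1.trans (mul_le_mul_of_nonneg_right
              (hN2 _ (h.mem ht hy) _ (h.mem ht hj)) (norm_nonneg _))
          have e5 : y = y ^ (1 - α) * y ^ α := by rw [← Real.rpow_add h0]; simp
          refine (abs_add_le _ _).trans ?_
          calc _ ≤ N * (C * y) + N * ‖Φ t (x j + y * e j) - Φ t (x j)‖ ^ α * ‖D (e j)‖ :=
                add_le_add b1 b2
            _ = N * (C * (y ^ (1 - α) * y ^ α)) +
                N * ‖Φ t (x j + y * e j) - Φ t (x j)‖ ^ α * ‖D (e j)‖ := by rw [← e5]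
            _ = _ := by ring
        have h2 : c / N ≤ ‖D (e j)‖ ^ (1 + α) := by
          rw [div_le_iff₀ hN, mul_comm]
          refine h1.trans (le_of_eq ?_)
          rcases eq_or_ne (D (e j)) 0 with hz | hz
          · rw [hz, norm_zero, Real.zero_rpow hα.ne', Real.zero_rpow hα2.ne']; ring
          · rw [Real.rpow_add (norm_pos_iff.2 hz), Real.rpow_one]; ring
        calc (c / N) ^ (1 / (1 + α)) ≤ (‖D (e j)‖ ^ (1 + α)) ^ (1 / (1 + α)) :=
              Real.rpow_le_rpow (by positivity) h2 (by positivity)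
          _ = ‖D (e j)‖ := by
              rw [← Real.rpow_mul (norm_nonneg _), mul_one_div_cancel hα2.ne', Real.rpow_one]
    obtain ⟨c', hc', hev⟩ := pow_growth (by linarith : 0 < 1 + α) hC1 hcpos key
    refine ⟨?_, c', hc', hev⟩
    have h1 : Tendsto (fun t : ℝ => ENNReal.ofReal (c' * t ^ ((1 + α) / 2))) atTop (𝓝 ⊤) :=
      ENNReal.tendsto_ofReal_atTop.comp
        ((tendsto_rpow_atTop (by linarith)).const_mul_atTop hc')
    exact tendsto_nhds_top_mono h1 hev

end Pool.Agent.Results.MP_fb2db9_an.EllipseC1HolderGrowth
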