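import Pool.Agent.T2h22.Assemble

/-!
# Yudovich's conjecture on the growth of the Hölder norm of the vorticity: ellipses and discs

For the two-dimensional Euler equations on an ellipse (in particular on a disc): every datum
`ωs` (steady or not) can be perturbed by an arbitrarily small amount in `C^α` so that the
vorticity of every classical solution with the perturbed datum tends to infinity in `C^α`, with
the lower bound `c t ^ (α / 2)`.
-/

set_option autoImplicit false

open MeasureTheory Set Filter Topology Metric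

namespace Pool.Agent.Results.MP_fb2db9_an.EllipseHolderGrowth

open Pool.Agent.T2h22

theorem result {a b α : ℝ} (ha : 0 < a) (hb : 0 < b) (hα : 0 < α) (hα1 : α < 1)
    (ωs : ℂ → ℝ) {ε : ℝ} (hε : 0 < ε) :
    ∃ ω0 : ℂ → ℝ, holderNorm (Ellipse a b) α (fun z => ω0 z - ωs z) ≤ ENNReal.ofReal ε ∧
      ∀ (ω ψ : ℝ → ℂ → ℝ) (Φ : ℝ → ℂ → ℂ), IsEulerSolution (Ellipse a b) ω ψ Φ →
        (∀ z ∈ Ellipse a b, ω 0 z = ω0 z) →
        Tendsto (fun t => holderNorm (Ellipse a b) α (ω t)) atTop (𝓝 ⊤) ∧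
        ∃ c : ℝ, 0 < c ∧ ∀ᶠ t in atTop,
          ENNReal.ofReal (c * t ^ (α / 2)) ≤ holderNorm (Ellipse a b) α (ω t) := by
  have hM := isOpen_ellipse ha hb
  have hcv := convex_ellipse ha hb
  obtain ⟨x, e, hx, he, hd⟩ := exists_dense_pairs
  have hℓ : ‖ContinuousLinearMap.id ℝ ℝ‖ ≤ 1 := ContinuousLinearMap.norm_id_le
  obtain ⟨r, hr0, hr1, hrh, hreg, hcoef⟩ := exists_coeff (α := α) (C := 1) (σ := -1) (ρ0 := 1)
    (G := prof0 α) (ℓ := fun _ => ContinuousLinearMap.id ℝ ℝ) hα hα1 one_pos (prof0_supp hα)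
    prof0_bd (prof0_holder hα hα1) (prof0_lip hα hα1) (by norm_num) one_pos (fun _ _ => hℓ)
    (fun e he h h0 h1 => by
      rw [ContinuousLinearMap.id_apply, prof0_cusp hα e he h h0 h1, sub_self, abs_zero]
      positivity) hx he
  -- the size of the rough part
  set c0 : ℝ := ε / 14 with hc0
  have hc00 : 0 < c0 := by positivity
  obtain ⟨t, ht1, ht⟩ := hcoef ωs c0 hc00
  obtain ⟨hbd, hhol⟩ := hreg t ht1
  set g : ℂ → ℝ := fun z => ωs z + c0 • cusps α (prof0 α) r x t z with hg
  -- the size of the smooth part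
  obtain ⟨K, hK0, hK1, hK2⟩ := holder_of_contDiff ((PP_contDiff a b 1).of_le (by norm_num))
    (isBounded_ellipse ha hb) hα hα1
  set k : ℝ := ε / (8 * (K + 1)) with hk
  have hk0 : 0 < k := by positivity
  obtain ⟨s, hs, hgood⟩ := exists_good ha hb hk0.ne' g
  have hsk : |s * k| * K ≤ ε / 8 := by
    rw [abs_mul, abs_of_pos hk0]
    calc |s| * k * K ≤ 1 * k * (K + 1) := by gcongr; linarith
      _ = ε / 8 := by rw [hk]; field_simp
  refine ⟨fun z => g z + PP a b (s * k) z, ?_, ?_⟩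
  · -- closeness
    have e1 : ∀ z, g z + PP a b (s * k) z - ωs z =
        c0 * cusps α (prof0 α) r x t z + s * k * PP a b 1 z := fun z => by
      rw [hg, PP_smul]; simp only [smul_eq_mul]; ring
    have e2 : ENNReal.ofReal ε = ENNReal.ofReal (ε / 3 + 2 * ε / 3) := by congr 1; ring
    rw [e2]
    refine norm_le_of_holder (by positivity) (by positivity) (fun z hz => ?_)
      (fun z hz w hw => ?_)
    · rw [e1]
      refine (norm_add_le _ _).trans ?_
      rw [norm_mul, norm_mul, Real.norm_of_nonneg hc00.le, Real.norm_eq_abs (s * k)]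
      have h1 : c0 * ‖cusps α (prof0 α) r x t z‖ ≤ c0 * 1 :=
        mul_le_mul_of_nonneg_left (hbd z) hc00.le
      rw [mul_one] at h1
      have h3 : c0 ≤ ε / 14 := hc0.le
      have h2 : |s * k| * ‖PP a b 1 z‖ ≤ |s * k| * K :=
        mul_le_mul_of_nonneg_left (hK1 z hz) (abs_nonneg _)
      linarith
    · rw [e1, e1]
      have e3 : c0 * cusps α (prof0 α) r x t z + s * k * PP a b 1 z -
          (c0 * cusps α (prof0 α) r x t w + s * k * PP a b 1 w) =
          c0 * (cusps α (prof0 α) r x t z - cusps α (prof0 α) r x t w) +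
          s * k * (PP a b 1 z - PP a b 1 w) := by ring
      rw [e3]
      refine (norm_add_le _ _).trans ?_
      rw [norm_mul, norm_mul, Real.norm_of_nonneg hc00.le, Real.norm_eq_abs (s * k)]
      have hp : 0 ≤ ‖z - w‖ ^ α := by positivity
      have h1 : c0 * ‖cusps α (prof0 α) r x t z - cusps α (prof0 α) r x t w‖ ≤
          c0 * (6 * 1 * ‖z - w‖ ^ α) := mul_le_mul_of_nonneg_left (hhol z w) hc00.le
      have h2 : |s * k| * ‖PP a b 1 z - PP a b 1 w‖ ≤ |s * k| * (K * ‖z - w‖ ^ α) :=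
        mul_le_mul_of_nonneg_left (hK2 z hz w hw) (abs_nonneg _)
      have h3 : |s * k| * (K * ‖z - w‖ ^ α) ≤ ε / 8 * ‖z - w‖ ^ α := by
        rw [← mul_assoc]; exact mul_le_mul_of_nonneg_right hsk hp
      have h4 : c0 * (6 * 1 * ‖z - w‖ ^ α) = 3 * ε / 7 * ‖z - w‖ ^ α := by rw [hc0]; ring
      have h5 : 3 * ε / 7 * ‖z - w‖ ^ α + ε / 8 * ‖z - w‖ ^ α ≤ 2 * ε / 3 * ‖z - w‖ ^ α := by
        rw [← add_mul]
        refine mul_le_mul_of_nonneg_right ?_ hp
        linarith
      linarith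
  · intro ω ψ Φ h hω
    obtain ⟨C1, hC1, hgr⟩ := hgood ω ψ Φ h hω
    set c : ℝ := c0 * |(-1 : ℝ)| / 16 / 2 with hc
    have hcpos : 0 < c := by rw [hc]; norm_num; positivity
    -- the cusps of the datum
    have hrough : ∀ j, x j ∈ Ellipse a b → ∀ δ > 0, ∃ h : ℝ, 0 < h ∧ h < δ ∧
        c * h ^ α ≤ |ω 0 (x j + h * e j) - ω 0 (x j)| := by
      intro j hj δ hδ
      have hpos : 0 < c0 * |(-1 : ℝ)| / 16 := by norm_num; positivity
      have h1 := rough_add (ℓ := ContinuousLinearMap.id ℝ ℝ) hℓ (F := g)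
        (H := PP a b (s * k)) (x := x j) (he j)
        ((PP_contDiff a b (s * k)).differentiable (by norm_num) _) hα1 hpos
        (fun δ hδ => ht j δ hδ)
      have hnear : ∀ᶠ h : ℝ in 𝓝[>] 0, x j + h * e j ∈ Ellipse a b := by
        have hcnt : Tendsto (fun h : ℝ => x j + h * e j) (𝓝[>] 0) (𝓝 (x j + ((0 : ℝ) : ℂ) * e j)) :=
          (Continuous.tendsto (by fun_prop) 0).mono_left nhdsWithin_le_nhds
        rw [Complex.ofReal_zero, zero_mul, add_zero] at hcnt
        exact hcnt.eventually (hM.mem_nhds hj)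
      obtain ⟨δ', hδ', hδ''⟩ := mem_nhdsGT_iff_exists_Ioo_subset.1 hnear
      have hδ'0 : 0 < δ' := hδ'
      obtain ⟨h, h0, hlt, hle⟩ := h1 (min δ δ') (lt_min hδ hδ'0)
      refine ⟨h, h0, hlt.trans_le (min_le_left _ _), ?_⟩
      rw [hω _ (hδ'' ⟨h0, hlt.trans_le (min_le_right _ _)⟩), hω _ hj]
      exact hle
    -- from the Hölder norm to the derivative of the flow
    have key : ∀ t, 0 ≤ t → ∀ N, 0 < N → holderNorm (Ellipse a b) α (ω t) ≤ ENNReal.ofReal N →
        t ≤ C1 * (((N / c) ^ (1 / α)) ^ 2 + 1) := by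
      intro t ht N hN hle
      have hN2 := (holder_of_norm_le hN.le hle).2
      refine hgr t ht _ ?_
      have hm : 0 < (c / N) ^ (1 / α) := by positivity
      have hinv : (N / c) ^ (1 / α) = 1 / (c / N) ^ (1 / α) := by
        rw [← inv_div c N, Real.inv_rpow (by positivity), one_div ((c / N) ^ (1 / α))]
      rw [hinv]
      have hfd := h.flowData hM hcv
      refine bound_of_dense hM (D := fun z => fderiv ℝ (Φ t) z) ?_
        (fun z hz => h.jac_one hM hcv ht hz) hd hm fun j hj => ?_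
      · exact hfd.dphi_cont.comp (f := fun z : ℂ => (t, z))
          (Continuous.prodMk_right t).continuousOn fun z hz => ⟨ht, hz⟩
      · have h1 : c ≤ N * ‖fderiv ℝ (Φ t) (x j) (e j)‖ ^ α := by
          refine lower_of_holder (hfd.dphi hj ht) hα (r := fun _ => 0) tendsto_const_nhds
            fun δ hδ => ?_
          have hnear : ∀ᶠ h : ℝ in 𝓝[>] 0, x j + h * e j ∈ Ellipse a b := by
            have hcnt : Tendsto (fun h : ℝ => x j + h * e j) (𝓝[>] 0)
                (𝓝 (x j + ((0 : ℝ) : ℂ) * e j)) :=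
              (Continuous.tendsto (by fun_prop) 0).mono_left nhdsWithin_le_nhds
            rw [Complex.ofReal_zero, zero_mul, add_zero] at hcnt
            exact hcnt.eventually (hM.mem_nhds hj)
          obtain ⟨δ', hδ', hδ''⟩ := mem_nhdsGT_iff_exists_Ioo_subset.1 hnear
          have hδ'0 : 0 < δ' := hδ'
          obtain ⟨y, h0, hlt, hle⟩ := hrough j hj (min δ δ') (lt_min hδ hδ'0)
          have hy : x j + y * e j ∈ Ellipse a b := hδ'' ⟨h0, hlt.trans_le (min_le_right _ _)⟩
          refine ⟨y, h0, hlt.trans_le (min_le_left _ _), hle.trans ?_⟩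
          rw [zero_mul, add_zero, ← h.transport t ht _ hy, ← h.transport t ht _ hj]
          exact hN2 _ (h.mem ht hy) _ (h.mem ht hj)
        have h2 : c / N ≤ ‖fderiv ℝ (Φ t) (x j) (e j)‖ ^ α := by
          rw [div_le_iff₀ hN, mul_comm]; exact h1
        calc (c / N) ^ (1 / α) ≤ (‖fderiv ℝ (Φ t) (x j) (e j)‖ ^ α) ^ (1 / α) :=
              Real.rpow_le_rpow (by positivity) h2 (by positivity)
          _ = ‖fderiv ℝ (Φ t) (x j) (e j)‖ := by
              rw [← Real.rpow_mul (norm_nonneg _), mul_one_div_cancel hα.ne', Real.rpow_one]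
    obtain ⟨c', hc', hev⟩ := pow_growth hα hC1 hcpos key
    refine ⟨?_, c', hc', hev⟩
    have h1 : Tendsto (fun t : ℝ => ENNReal.ofReal (c' * t ^ (α / 2))) atTop (𝓝 ⊤) :=
      ENNReal.tendsto_ofReal_atTop.comp
        ((tendsto_rpow_atTop (by positivity)).const_mul_atTop hc')
    exact tendsto_nhds_top_mono h1 hev

end Pool.Agent.Results.MP_fb2db9_an.EllipseHolderGrowth
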